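import Pool.Agent.Q310.FP.Gen
import Pool.Agent.W609.T.Five
import Pool.Agent.W611.FinH

set_option autoImplicit false

/-!
# Standard classes of large degree or large third multiplicity, in terms of the fourth multiplicity
-/

namespace Pool.Agent.Q310.FP

open Pool.Agent.H932R3

/-- The multiplicities `v 0 ≥ v 1 ≥ ⋯` (in decreasing order) and the degree `d` satisfy: `v 3 > 0`;
`v 2 < 2 (v 3) ^ 2 + 3 v 3 + 2`; `v 2 < 4 m ^ 2 + 8 m + 5` for every `m ≥ 1` such that at most the first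
five multiplicities are larger than `m`;
`(d + 1) (d + 2) < 2 ^ 17 (v 3 + 1) ^ 4 + ∑_{i < 3} v i (v i + 1)`;
`∑_{i ≥ 3} (v i + 1).choose 2 < 2 ^ 17 (v 3 + 1) ^ 4`; and
`d + 1 + v 0 v 1 + v 0 v 2 + v 1 v 2 < 2 ^ 16 (v 3 + 1) ^ 4`. -/
structure Small4 {r : ℕ} (d : ℕ) (v : Fin (r + 4) → ℕ) : Prop where
  pos : 0 < v 3
  third : v 2 < 2 * v 3 ^ 2 + 3 * v 3 + 2
  third' : ∀ m : ℕ, 0 < m → (∀ i : Fin (r + 4), 5 ≤ (i : ℕ) → v i ≤ m) →
    v 2 < 4 * m ^ 2 + 8 * m + 5
  deg : (d + 1) * (d + 2) <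
    131072 * (v 3 + 1) ^ 4 + (v 0 * (v 0 + 1) + v 1 * (v 1 + 1) + v 2 * (v 2 + 1))
  cond : (∑ i : Fin (r + 4), if 3 ≤ (i : ℕ) then (v i + 1).choose 2 else 0) <
    131072 * (v 3 + 1) ^ 4
  prod : d + 1 + (v 0 * v 1 + v 0 * v 2 + v 1 * v 2) < 65536 * (v 3 + 1) ^ 4

/-- The points may be enumerated by `σ` such that the multiplicities decrease and satisfy, with the
degree, the inequalities `Small4`. -/
def Rem4 {n : ℕ} (d : ℕ) (w : Fin n → ℕ) : Prop :=
  ∃ (r : ℕ) (σ : Fin (r + 4) ≃ Fin n), (Antitone fun j => w (σ j)) ∧ Small4 d fun j => w (σ j)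

theorem sum_range_le {s : ℕ} (g : ℕ → ℕ) (k : ℕ) (hg : ∀ i, k ≤ i → g i = 0) :
    ∑ i : Fin s, g (i : ℕ) ≤ ∑ i ∈ Finset.range k, g i := by
  rw [Fin.sum_univ_eq_sum_range g s]
  rcases Nat.lt_or_ge s k with h | h
  · exact Finset.sum_le_sum_of_subset (Finset.range_mono h.le)
  · rw [← Finset.sum_range_add_sum_Ico g h, Finset.sum_eq_zero (s := Finset.Ico k s)
      (fun i hi => hg i (Finset.mem_Ico.1 hi).1)]
    exact le_rfl

/-- Sorted standard classes. -/
theorem sorted_or {r : ℕ} (d : ℕ) (v : Fin (r + 4) → ℕ) (hv : Antitone v)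
    (hge : v 0 + v 1 + v 2 ≤ d) : GE d v ∨ Small4 d v := by
  classical
  by_cases hG : GE d v
  · exact Or.inl hG
  right
  have n0 : ((0 : Fin (r + 4)) : ℕ) = 0 := rfl
  have n1 : ((1 : Fin (r + 4)) : ℕ) = 1 := Nat.mod_eq_of_lt (show 1 < r + 4 by omega)
  have n2 : ((2 : Fin (r + 4)) : ℕ) = 2 := Nat.mod_eq_of_lt (show 2 < r + 4 by omega)
  have n3 : ((3 : Fin (r + 4)) : ℕ) = 3 := Nat.mod_eq_of_lt (show 3 < r + 4 by omega)
  have h21 : v 1 ≤ v 0 := hv (by rw [Fin.le_def, n1, n0]; omega)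
  have h32 : v 2 ≤ v 1 := hv (by rw [Fin.le_def, n1, n2]; omega)
  have h43 : v 3 ≤ v 2 := hv (by rw [Fin.le_def, n2, n3]; omega)
  have i0 : ∀ i : Fin (r + 4), v i ≤ v 0 := fun i => hv (by rw [Fin.le_def, n0]; omega)
  have i1 : ∀ i : Fin (r + 4), 1 ≤ (i : ℕ) → v i ≤ v 1 := fun i hi =>
    hv (by rw [Fin.le_def, n1]; exact hi)
  have i2 : ∀ i : Fin (r + 4), 2 ≤ (i : ℕ) → v i ≤ v 2 := fun i hi =>
    hv (by rw [Fin.le_def, n2]; exact hi)
  have i3 : ∀ i : Fin (r + 4), 3 ≤ (i : ℕ) → v i ≤ v 3 := fun i hi =>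
    hv (by rw [Fin.le_def, n3]; exact hi)
  have hpos : 0 < v 3 := by
    rcases Nat.eq_zero_or_pos (v 3) with h0 | h0
    · exfalso
      refine hG (GE.of_field fun L _ _ => ?_)
      obtain ⟨F, hF, hF'⟩ := W609.T.big_three L hv h0
      exact ⟨F, hF, fun P hP => hF' P hP d hge⟩
    · exact h0
  have hpair : ∀ i j : Fin (r + 4), i ≠ j → v i + v j ≤ v 0 + v 1 := by
    intro i j hij
    have hne : (i : ℕ) ≠ (j : ℕ) := fun h => hij (Fin.ext h)
    rcases Nat.lt_or_ge (i : ℕ) (j : ℕ) with hlt | hge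
    · have := i0 i
      have := i1 j (by omega)
      omega
    · have := i0 j
      have := i1 i (by omega)
      omega
  have hcnd : ∀ m : ℕ, 0 < m → ¬ W611.Cnd m d v := by
    intro m hm hC
    refine hG (GE.of_field fun L _ _ => ?_)
    obtain ⟨F, hF, hF'⟩ := W611.expH L m hm v d hC
    exact ⟨F, hF, fun P hP => hF' P hP d (Or.inl le_rfl)⟩
  have eff : ∀ m, W611.ff m = 2 * m ^ 2 + 3 * m + 2 := by
    intro m
    unfold W611.ff
    ring
  have hthird : v 2 < 2 * v 3 ^ 2 + 3 * v 3 + 2 := by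
    by_contra hcon
    push Not at hcon
    refine hcnd (v 3) hpos ⟨?_, fun i _ => ?_, fun i j hij _ _ => ?_, Or.inl ?_⟩
    · rw [eff]
      omega
    · have := i0 i
      rw [eff]
      omega
    · have := hpair i j hij
      rw [eff]
      omega
    · unfold W611.Nlg
      refine le_trans (Finset.sum_le_sum (g := fun i : Fin (r + 4) =>
        (fun k : ℕ => if k < 3 then 1 else 0) (i : ℕ)) fun i _ => ?_)
        (le_trans (sum_range_le (fun k : ℕ => if k < 3 then 1 else 0) 3 fun k hk => ?_) ?_)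
      · simp only
        by_cases h3 : (i : ℕ) < 3
        · rw [if_pos h3]
          split_ifs <;> omega
        · rw [if_neg h3, if_pos (i3 i (by omega))]
      · exact if_neg (by omega)
      · decide
  have hthird' : ∀ m : ℕ, 0 < m → (∀ i : Fin (r + 4), 5 ≤ (i : ℕ) → v i ≤ m) →
      v 2 < 4 * m ^ 2 + 8 * m + 5 := by
    intro m hm h5
    by_contra hcon
    push Not at hcon
    have hff : 2 * m ^ 2 + 3 * m + 2 ≤ v 2 := by
      have : 2 * m ^ 2 ≤ 4 * m ^ 2 := Nat.mul_le_mul_right _ (by omega)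
      omega
    refine hcnd m hm ⟨?_, fun i _ => ?_, fun i j hij _ _ => ?_, Or.inr ?_⟩
    · rw [eff]
      omega
    · have := i0 i
      rw [eff]
      omega
    · have := hpair i j hij
      rw [eff]
      omega
    · obtain ⟨g, hg⟩ : ∃ g : ℕ → ℕ, g = fun k => if k = 0 ∨ k = 3 then v 0 else
        if k = 1 ∨ k = 4 then v 1 else if k = 2 then v 2 else 0 := ⟨_, rfl⟩
      have h7 : W611.Slg m v ≤ ∑ i : Fin (r + 4), g (i : ℕ) := by
        unfold W611.Slg
        refine Finset.sum_le_sum fun i _ => ?_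
        split_ifs with h8
        · exact Nat.zero_le _
        · rw [hg]
          simp only
          split_ifs with g1 g2 g3
          · exact i0 i
          · exact i1 i (by omega)
          · exact i2 i (by omega)
          · exact absurd (h5 i (by omega)) h8
      have h8 := sum_range_le (s := r + 4) g 5 (fun k hk => by
        rw [hg]
        simp only
        rw [if_neg (by omega), if_neg (by omega), if_neg (by omega)])
      have h9 : ∑ i ∈ Finset.range 5, g i = v 0 + v 1 + v 2 + v 0 + v 1 := by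
        rw [hg]
        simp [Finset.sum_range_succ]
      rw [eff]
      omega
  have hbig : ¬ (131072 * (v 3 + 1) ^ 4 +
        (v 0 * (v 0 + 1) + v 1 * (v 1 + 1) + v 2 * (v 2 + 1)) ≤ (d + 1) * (d + 2) ∨
      131072 * (v 3 + 1) ^ 4 ≤
        ∑ i : Fin (r + 4), if 3 ≤ (i : ℕ) then (v i + 1).choose 2 else 0) := by
    intro h
    refine hG (GE.of_field fun L _ _ => ?_)
    obtain ⟨F, hF, hF'⟩ := W609.T.big3' L hv hpos
    exact ⟨F, hF, fun P hP => hF' P hP d hge h⟩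
  push Not at hbig
  obtain ⟨b1, b2⟩ := hbig
  refine ⟨hpos, hthird, hthird', b1, b2, ?_⟩
  obtain ⟨B, hB⟩ : ∃ B, B = (v 3 + 1) ^ 4 := ⟨_, rfl⟩
  rw [← hB] at b1 ⊢
  obtain ⟨e, he⟩ : ∃ e, d = v 0 + v 1 + v 2 + e := ⟨d - (v 0 + v 1 + v 2), by omega⟩
  rw [he] at b1 ⊢
  nlinarith [Nat.zero_le (e * (v 0 + v 1 + v 2)), Nat.zero_le (e * e)]

/-- Standard classes. -/
theorem std_or4 {n : ℕ} (hn : 4 ≤ n) (d : ℕ) (w : Fin n → ℕ) (hs : Standard d w) :
    GE d w ∨ Rem4 d w := by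
  obtain ⟨r, rfl⟩ : ∃ r, n = r + 4 := ⟨n - 4, by omega⟩
  obtain ⟨σ, hσ⟩ := exists_sorting w
  have n0 : ((0 : Fin (r + 4)) : ℕ) = 0 := rfl
  have n1 : ((1 : Fin (r + 4)) : ℕ) = 1 := Nat.mod_eq_of_lt (show 1 < r + 4 by omega)
  have n2 : ((2 : Fin (r + 4)) : ℕ) = 2 := Nat.mod_eq_of_lt (show 2 < r + 4 by omega)
  have ne01 : σ 0 ≠ σ 1 := fun h => by
    have := congrArg Fin.val (σ.injective h)
    rw [n0, n1] at this
    omega
  have ne02 : σ 0 ≠ σ 2 := fun h => by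
    have := congrArg Fin.val (σ.injective h)
    rw [n0, n2] at this
    omega
  have ne12 : σ 1 ≠ σ 2 := fun h => by
    have := congrArg Fin.val (σ.injective h)
    rw [n1, n2] at this
    omega
  rcases sorted_or d (fun j => w (σ j)) hσ (hs _ _ _ ne01 ne02 ne12) with h | h
  · exact Or.inl (GE.perm σ h)
  · exact Or.inr ⟨r, σ, hσ, h⟩

end Pool.Agent.Q310.FP
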