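import Pool.Agent.Q310.FP.Gen
import Pool.Agent.TH718.UG.Near2

set_option autoImplicit false

/-!
# The uniform gap above the Nagata bound, and near-uniform subsets of the points
-/

namespace Pool.Agent.Q310.FP

open MvPolynomial Pool.Agent.TH167 Pool.Agent.TH167.SHDefs Pool.Agent.H932R3

/-- The expected dimension at general complex points gives the expected dimension at all generic
points. -/
theorem GE.of_complex {n d : ℕ} {w : Fin n → ℕ}
    (h : ∃ F : MvPolynomial (Fin n × Fin 2) ℚ, F ≠ 0 ∧ ∀ (P : Fin n → Fin 2 → ℂ),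
        MvPolynomial.aeval (fun ij : Fin n × Fin 2 => P ij.1 ij.2) F ≠ 0 → ExpDim ℂ w P d) :
    GE d w := by
  obtain ⟨F, hF, hF'⟩ := h
  obtain ⟨g, F2, hF2, hg⟩ := SH.dim_gen w d
  have h1 : (F * F2).map (algebraMap ℚ ℂ) ≠ 0 := map_ne_zero_of (mul_ne_zero hF hF2)
  obtain ⟨x, hx⟩ : ∃ x : Fin n × Fin 2 → ℂ, eval x ((F * F2).map (algebraMap ℚ ℂ)) ≠ 0 := by
    by_contra hcon
    push Not at hcon
    exact h1 (MvPolynomial.funext fun x => by rw [hcon x, map_zero])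
  rw [eval_map] at hx
  have hx' : aeval (fun ij : Fin n × Fin 2 => (fun i j => x (i, j) : Fin n → Fin 2 → ℂ) ij.1 ij.2)
      (F * F2) ≠ 0 := hx
  rw [map_mul] at hx'
  have h2 := hF' (fun i j => x (i, j)) (left_ne_zero_of_mul hx')
  have h3 := hg ℂ (fun i j => x (i, j)) (right_ne_zero_of_mul hx')
  rw [TH442.NF.expDim_iff, h3] at h2
  intro K _ _ P hP
  rw [TH442.NF.expDim_iff, hg K P fun h0 => hF2 (hP.eq_zero_of_aeval_eq_zero F2 h0)]
  exact h2

theorem GE.of_van {n d : ℕ} {w : Fin n → ℕ} (h : TH718.UG.Van w d) : GE d w := by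
  obtain ⟨F, hF, hF'⟩ := h
  refine GE.of_complex ⟨F, hF, fun P hP => ?_⟩
  obtain ⟨h1, h2⟩ := hF' P hP
  have h3 : Module.finrank ℂ ↥(H248R5.forms w P d) =
      (d + 2).choose 2 - ∑ i, (w i + 1).choose 2 := by
    rw [h1, finrank_bot]
    omega
  exact h3

/-- For every set `T` of at least ten points and `d > 0`: if `T` has at least twelve points or `3`
does not divide `d`, then `∑_T w i + 1 - 3 / √|T| ≤ √|T| d`; and if the multiplicities on `T` are `k`
or `k + 1`, `k ≥ 1`, then `∑_T (w i) ^ 2 < d ^ 2`, except that equality is allowed if `|T| = 10`,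
`k = 1` and `d` is `4` or `5`. -/
def AboveGap {n : ℕ} (d : ℕ) (w : Fin n → ℕ) : Prop :=
  0 < d → ∀ T : Finset (Fin n), 10 ≤ T.card →
    ((12 ≤ T.card ∨ ¬ 3 ∣ d) →
      (∑ i ∈ T, (w i : ℝ)) + 1 - 3 / √(T.card : ℝ) ≤ √(T.card : ℝ) * d) ∧
    ∀ k : ℕ, 1 ≤ k → (∀ i ∈ T, w i = k ∨ w i = k + 1) →
      ∑ i ∈ T, w i ^ 2 < d ^ 2 ∨
        (T.card = 10 ∧ k = 1 ∧ (d = 4 ∨ d = 5) ∧ ∑ i ∈ T, w i ^ 2 = d ^ 2)

theorem gap_or {n : ℕ} (d : ℕ) (w : Fin n → ℕ) : GE d w ∨ AboveGap d w := by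
  classical
  by_cases hG : GE d w
  · exact Or.inl hG
  right
  intro hd T hT
  obtain ⟨t, ht⟩ : ∃ t, T.card = t := ⟨_, rfl⟩
  have ht10 : 10 ≤ t := by omega
  let g : Fin t ↪o Fin n := T.orderEmbOfFin ht
  have hsum : ∀ {M : Type} [AddCommMonoid M] (f : Fin n → M), ∑ i ∈ T, f i = ∑ j : Fin t, f (g j) := by
    intro M _ f
    rw [← Finset.map_orderEmbOfFin_univ T ht, Finset.sum_map]
    rfl
  have hmem : ∀ j : Fin t, g j ∈ T := fun j => by
    have : g j ∈ Finset.map g.toEmbedding Finset.univ := Finset.mem_map_of_mem _ (Finset.mem_univ j)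
    rwa [Finset.map_orderEmbOfFin_univ T ht] at this
  constructor
  · intro h3
    by_contra hcon
    rw [not_le] at hcon
    rw [ht, hsum] at hcon
    rw [ht] at h3
    exact hG (GE.of_van (TH718.UG.Van_sub g g.injective
      (TH718.UG.Van_of_Emp (TH718.UG.Emp_gap' ht10 (Fintype.card_fin t) hd h3
        (by rw [Nat.cast_sum]; exact hcon)))))
  · intro k hk hw
    by_contra hcon
    rw [not_or, not_lt] at hcon
    rw [ht, hsum] at hcon
    exact hG (GE.of_van (TH718.UG.Van_sub g g.injective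
      (TH718.UG.Van_near_all ht10 hd hk (fun j => hw (g j) (hmem j)) hcon.1 hcon.2)))

end Pool.Agent.Q310.FP
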