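import Pool.Agent.Q310.FP.Gen
import Pool.Agent.W609.Fin
import Pool.Agent.W609.Fin2

set_option autoImplicit false

/-!
# One arbitrary multiplicity `M`, the others at most `m`: standard classes with `d > M + 2 m`
-/

namespace Pool.Agent.Q310.FP

open Pool.Agent.H932R3

/-- The number of conditions of the multiplicities at the points other than `a`. -/
def condOff {n : ℕ} (a : Fin n) (w : Fin n → ℕ) : ℕ :=
  ∑ i, if i = a then 0 else (w i + 1).choose 2

/-- For every point `a` and every upper bound `m` for the multiplicities at the other points with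
`w a + 2 m < d`, and `M = w a`, `S` the sum of `(w i + 1).choose 2` over the other points:
* `(d + 1) (d + 2) < 64 (m + 1) ^ 4 + M (M + 1)` and `S < 64 (m + 1) ^ 4`;
* if `|(d + 2).choose 2 - (M + 1).choose 2 - S| ≥ 2 (m + 1).choose 3`, `m ≥ 1`, then
  `(d + 1) (d + 2) < 27 (m + 4) ^ 3 + M (M + 1)` and `S < 27 (m + 4) ^ 3`. -/
def OneLarge {n : ℕ} (d : ℕ) (w : Fin n → ℕ) : Prop :=
  ∀ (a : Fin n) (m : ℕ), (∀ i, i ≠ a → w i ≤ m) → w a + 2 * m < d →
    ((d + 1) * (d + 2) < 64 * (m + 1) ^ 4 + w a * (w a + 1) ∧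
      condOff a w < 64 * (m + 1) ^ 4) ∧
    (1 ≤ m → ((d + 2).choose 2 + 2 * (m + 1).choose 3 ≤ (w a + 1).choose 2 + condOff a w ∨
        (w a + 1).choose 2 + condOff a w + 2 * (m + 1).choose 3 ≤ (d + 2).choose 2) →
      (d + 1) * (d + 2) < 27 * (m + 4) ^ 3 + w a * (w a + 1) ∧
        condOff a w < 27 * (m + 4) ^ 3)

theorem one_or {n : ℕ} (d : ℕ) (w : Fin n → ℕ) : GE d w ∨ OneLarge d w := by
  classical
  by_cases hG : GE d w
  · exact Or.inl hG
  right
  intro a m hm hd
  obtain ⟨k, rfl⟩ : ∃ k, n = k + 1 := ⟨n - 1, by have := a.2; omega⟩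
  obtain ⟨σ, hσ⟩ : ∃ σ : Equiv.Perm (Fin (k + 1)), σ = Equiv.swap 0 a := ⟨_, rfl⟩
  have h0 : σ 0 = a := by rw [hσ, Equiv.swap_apply_left]
  obtain ⟨u, hu⟩ : ∃ u : Fin k → ℕ, u = fun j => w (σ j.succ) := ⟨_, rfl⟩
  have hcons : (fun j => w (σ j)) = (Fin.cons (w a) u : Fin (k + 1) → ℕ) := by
    funext j
    refine Fin.cases ?_ (fun j => ?_) j
    · rw [Fin.cons_zero, h0]
    · rw [Fin.cons_succ, hu]
  have hne : ∀ j : Fin k, σ j.succ ≠ a := fun j h => by
    rw [← h0] at h
    exact Fin.succ_ne_zero j (σ.injective h)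
  have hum : ∀ j, u j ≤ m := fun j => by
    rw [hu]
    exact hm _ (hne j)
  have hS : condOff a w = ∑ j, (u j + 1).choose 2 := by
    unfold condOff
    rw [← Equiv.sum_comp σ, Fin.sum_univ_succ, h0, if_pos rfl, zero_add, hu]
    exact Finset.sum_congr rfl fun j _ => if_neg (hne j)
  have hno : ¬ GE d (Fin.cons (w a) u : Fin (k + 1) → ℕ) := fun h => hG (GE.perm σ (by
    rw [hcons]
    exact h))
  have hAw : ∑ j, (u j + 1).choose 2 = H932R7.Aw u := rfl
  refine ⟨?_, fun h1 h2 => ?_⟩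
  · have key : ¬ (64 * (m + 1) ^ 4 + w a * (w a + 1) ≤ (d + 1) * (d + 2) ∨
        64 * (m + 1) ^ 4 ≤ ∑ j, (u j + 1).choose 2) := by
      intro h
      refine hno (GE.of_field fun L _ _ => ?_)
      obtain ⟨F, hF, hF'⟩ := W609.one_big2 L (M := w a) hum
      exact ⟨F, hF, fun P hP => hF' P hP d (by omega) h⟩
    rw [not_or, not_le, not_le] at key
    rw [hS]
    exact key
  · have key : ¬ (27 * (m + 4) ^ 3 + w a * (w a + 1) ≤ (d + 1) * (d + 2) ∨
        27 * (m + 4) ^ 3 ≤ ∑ j, (u j + 1).choose 2) := by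
      intro h
      refine hno (GE.of_field fun L _ _ => ?_)
      obtain ⟨F, hF, hF'⟩ := W609.one_big L (M := w a) (k := m) h1 le_rfl hum
        (fun i hi => absurd (hum i) (by omega))
      refine ⟨F, hF, fun P hP => hF' P hP d (by omega) h ?_⟩
      rw [hS, hAw] at h2
      rcases h2 with h2 | h2
      · exact Or.inl h2
      · right; left
        refine le_trans ?_ h2
        have e := H932R7.Aw_w2 u
        omega
    rw [not_or, not_le, not_le] at key
    rw [hS]
    exact key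

end Pool.Agent.Q310.FP
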