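import Pool.Agent.Y205.AV.Large
import Pool.Agent.Y939.NC.Reg
import Pool.Agent.Q310.FP.Fourth
import Pool.Agent.Q310.FP.Gap
import Pool.Agent.Q310.FP.One
import Pool.Agent.Q310.FP.Dec

set_option autoImplicit false

/-!
# The standard classes which remain after all lists
-/

namespace Pool.Agent.Q310.FP

/-- The standard class `(d; w)` is neither `Large` (`Pool.Agent.Y205.AV.Large`) nor `Good`
(`Pool.Agent.Y939.NC.Good`) nor decided by blocks, clusters and doubling, and satisfies the
inequalities `Rem4`, `AboveGap` and `OneLarge`. -/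
structure AllRem (N0 : ℕ) {n : ℕ} (d : ℕ) (w : Fin n → ℕ) : Prop where
  large : ¬ Pool.Agent.Y205.AV.Large d w
  good : ¬ Pool.Agent.Y939.NC.Good N0 d w
  fourth : Rem4 d w
  gap : AboveGap d w
  one : OneLarge d w
  undecided : Undecided d w

theorem all_or : ∃ N0 : ℕ, ∀ n : ℕ, 4 ≤ n → ∀ (d : ℕ) (w : Fin n → ℕ), Standard d w →
    GE d w ∨ AllRem N0 d w := by
  obtain ⟨N0, hN0⟩ := Pool.Agent.Y939.NC.reg_exp
  refine ⟨N0, fun n hn d w hs => ?_⟩
  by_cases hG : GE d w
  · exact Or.inl hG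
  · exact Or.inr ⟨fun h1 => hG fun K _ _ P hP => Pool.Agent.Y205.AV.large_exp h1 hP,
      fun h2 => hG fun K _ _ P hP => Pool.Agent.Y939.NC.good_exp hN0 hn hs h2 hP,
      (std_or4 hn d w hs).resolve_left hG, (gap_or d w).resolve_left hG,
      (one_or d w).resolve_left hG, (dec_or d w hs).resolve_left hG⟩

end Pool.Agent.Q310.FP
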