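import Pool.Agent.Y939.NC.Std
import Pool.Agent.TH167.SH.Fam
import Pool.Agent.TH167.SH.Conv
import Pool.Agent.TH442.NF.Std
import Pool.Agent.Y536.SH.Full
import Pool.Agent.H248R5.Gen

set_option autoImplicit false

/-!
# Special classes, prime divisors and negative curves: general reductions

`GE d w`: at generic points the linear system `(d; w)` has the expected dimension. If every standard
class has this property or belongs to a list `R`, then the special classes, the prime divisors with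
`h¹ ≠ 0` and the negative curves are reduced to classes in the list `R`.
-/

namespace Pool.Agent.Q310.FP

open MvPolynomial Pool.Agent.TH167 Pool.Agent.TH167.SHDefs Pool.Agent.H932R3

/-- The class `(d; w)` is standard: the degree is at least the sum of any three multiplicities. -/
def Standard {n : ℕ} (d : ℕ) (w : Fin n → ℕ) : Prop :=
  ∀ i j k : Fin n, i ≠ j → i ≠ k → j ≠ k → w i + w j + w k ≤ d

/-- At generic points (over every field of characteristic zero) the linear system `(d; w)` has the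
expected dimension. -/
def GE {n : ℕ} (d : ℕ) (w : Fin n → ℕ) : Prop :=
  ∀ (K : Type) [Field K] [CharZero K] (P : Fin n → Fin 2 → K),
    AlgebraicIndependent ℚ (fun ij : Fin n × Fin 2 => P ij.1 ij.2) → ExpDim K w P d

theorem GE.of_open {n d : ℕ} {w : Fin n → ℕ}
    (h : ∃ F : MvPolynomial (Fin n × Fin 2) ℚ, F ≠ 0 ∧
      ∀ {L : Type} [Field L] [CharZero L] (P : Fin n → Fin 2 → L),
        MvPolynomial.aeval (fun ij : Fin n × Fin 2 => P ij.1 ij.2) F ≠ 0 → ExpDim L w P d) :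
    GE d w := by
  intro K _ _ P hP
  obtain ⟨F, hF, hF'⟩ := h
  exact hF' P fun h0 => hF (hP.eq_zero_of_aeval_eq_zero F h0)

theorem GE.of_field {n d : ℕ} {w : Fin n → ℕ}
    (h : ∀ (L : Type) [Field L] [CharZero L], ∃ F : MvPolynomial (Fin n × Fin 2) ℚ, F ≠ 0 ∧
      ∀ (P : Fin n → Fin 2 → L),
        MvPolynomial.aeval (fun ij : Fin n × Fin 2 => P ij.1 ij.2) F ≠ 0 → ExpDim L w P d) :
    GE d w := by
  intro K _ _ P hP
  obtain ⟨F, hF, hF'⟩ := h K
  exact hF' P fun h0 => hF (hP.eq_zero_of_aeval_eq_zero F h0)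

theorem GE.perm {n d : ℕ} {w : Fin n → ℕ} (σ : Equiv.Perm (Fin n))
    (h : GE d fun j => w (σ j)) : GE d w := by
  intro K _ _ P hP
  have hP2 : AlgebraicIndependent ℚ (fun ij : Fin n × Fin 2 => P (σ ij.1) ij.2) :=
    hP.comp (fun ij : Fin n × Fin 2 => (σ ij.1, ij.2)) (by
      rintro ⟨a, b⟩ ⟨a', b'⟩ h
      rw [Prod.mk.injEq] at h
      rw [Prod.mk.injEq]
      exact ⟨σ.injective h.1, h.2⟩)
  have h1 := h K (fun j => P (σ j)) hP2
  rw [TH442.NF.expDim_iff] at h1 ⊢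
  have hvs : W609.CR.VS (fun j => W609.CR.aff (P (σ j))) (fun j => w (σ j)) d =
      W609.CR.VS (fun j => W609.CR.aff (P j)) w d :=
    W609.CR.vs_perm (fun j => W609.CR.aff (P j)) w d σ
  have hchi : SH.chi d (fun j => w (σ j)) = SH.chi d w := by
    unfold SH.chi
    rw [Equiv.sum_comp σ fun j => ((w j + 1).choose 2 : ℤ)]
  rw [hvs, hchi] at h1
  exact h1

theorem exists_sorting {n : ℕ} (w : Fin n → ℕ) :
    ∃ σ : Equiv.Perm (Fin n), Antitone fun j => w (σ j) := by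
  refine ⟨Tuple.sort (fun j => OrderDual.toDual (w j)), ?_⟩
  have h := Tuple.monotone_sort (fun j => OrderDual.toDual (w j))
  intro a b hab
  exact h hab

/-- At generic points the class is not special. -/
theorem nonspecial_of {K : Type} [Field K] {n : ℕ} {P : Fin n → Fin 2 → K} {d : ℕ} {w : Fin n → ℕ}
    (h : ExpDim K w P d) : ¬ Special P d w := by
  have h1 : Module.finrank K ↥(sys P d w) =
      Nat.choose (d + 2) 2 - ∑ i, Nat.choose (w i + 1) 2 := h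
  have h2 : ∑ i, ((w i + 1).choose 2 : ℤ) = ((∑ i, Nat.choose (w i + 1) 2 : ℕ) : ℤ) := by
    push_cast
    rfl
  unfold Special dimL virtdim
  rw [h1, h2]
  push Not
  omega

/-- For general complex points the class is not special. -/
theorem GE.general {n d : ℕ} {w : Fin n → ℕ} (h : GE d w) :
    ∃ F : MvPolynomial (Fin n × Fin 2) ℂ, F ≠ 0 ∧ ∀ P : Fin n → Fin 2 → ℂ,
      eval (fun ij : Fin n × Fin 2 => P ij.1 ij.2) F ≠ 0 → dimL P d w = max (virtdim d w) (-1) := by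
  obtain ⟨F, hF, hF'⟩ := TH442.NF.to_open (d := d) (w := w) fun {K _ _ P} hP => h K P hP
  refine ⟨F.map (algebraMap ℚ ℂ), map_ne_zero_of hF, fun P hP => ?_⟩
  rw [MvPolynomial.eval_map] at hP
  have h1 := nonspecial_of (hF' (L := ℂ) P hP)
  unfold Special at h1
  push Not at h1
  exact h1

/-- The Harbourne-Hirschowitz statement with the list `R` of remaining standard classes. -/
theorem hh_rem {n : ℕ} (hn : 4 ≤ n) {R : ℕ → (Fin n → ℕ) → Prop}
    (hR : ∀ (d : ℕ) (w : Fin n → ℕ), Standard d w → GE d w ∨ R d w) (d : ℕ) (w : Fin n → ℕ) :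
    ∃ F : MvPolynomial (Fin n × Fin 2) ℂ, F ≠ 0 ∧
      ∀ P : Fin n → Fin 2 → ℂ, MvPolynomial.eval (fun ij : Fin n × Fin 2 => P ij.1 ij.2) F ≠ 0 →
        (MinusOneSpecial P d w → Special P d w) ∧
        (Special P d w → MinusOneSpecial P d w ∨
          ∃ (d'' : ℕ) (w'' : Fin n → ℕ) (k : ℕ) (G : Fin k → MvPolynomial (Fin 3) ℂ)
            (e : Fin k → ℕ) (u : Fin k → Fin n → ℕ) (N : Fin k → ℕ) (d' : ℕ) (w' : Fin n → ℕ),
            Decomp P d w d'' w'' G e u N ∧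
            Relation.ReflTransGen Quadratic (d'', w'') (d', w') ∧ Standard d' w' ∧
            Special P d' w' ∧ R d' w') := by
  classical
  obtain ⟨F, hF, hF'⟩ := TH442.NF.hh_open hn (Q := fun d' w' => ¬ R d' w')
    (fun hP d1 w1 hr hG => ((hR d1 w1 hr).resolve_right hG) _ _ hP) d w
  refine ⟨F, hF, fun P hP => ⟨(hF' P hP).1, fun hs => ?_⟩⟩
  rcases (hF' P hP).2 hs with h | ⟨d', w', k, C, e, u, N, d1, w1, h1, h2, h3, h4, h5⟩
  · exact Or.inl h
  · exact Or.inr ⟨d', w', k, C, e, u, N, d1, w1, h1, h2, h3, h4, not_not.1 h5⟩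

/-- Segre's form of the statement. -/
theorem segre_rem {n : ℕ} (hn : 4 ≤ n) {R : ℕ → (Fin n → ℕ) → Prop}
    (hR : ∀ (d : ℕ) (w : Fin n → ℕ), Standard d w → GE d w ∨ R d w) (d : ℕ) (w : Fin n → ℕ) :
    ∃ F : MvPolynomial (Fin n × Fin 2) ℂ, F ≠ 0 ∧
      ∀ P : Fin n → Fin 2 → ℂ, eval (fun ij : Fin n × Fin 2 => P ij.1 ij.2) F ≠ 0 →
        Special P d w →
          (∃ (G : MvPolynomial (Fin 3) ℂ) (e : ℕ) (u : Fin n → ℕ),
            MinusOne P G e u ∧ inter d w e u ≤ -2 ∧ ∀ f ∈ sys P d w, G ^ 2 ∣ f) ∨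
          ∃ (d'' : ℕ) (w'' : Fin n → ℕ) (k : ℕ) (G : Fin k → MvPolynomial (Fin 3) ℂ)
            (e : Fin k → ℕ) (u : Fin k → Fin n → ℕ) (d' : ℕ) (w' : Fin n → ℕ),
            Decomp P d w d'' w'' G e u (fun _ => 1) ∧
            Relation.ReflTransGen Quadratic (d'', w'') (d', w') ∧ Standard d' w' ∧
            dimL P d' w' = dimL P d w ∧ Special P d' w' ∧ R d' w' := by
  classical
  obtain ⟨r, rfl⟩ : ∃ r, n = r + 4 := ⟨n - 4, by omega⟩
  obtain ⟨F, hF, hF'⟩ := Pool.Agent.Y536.SH.hh_full (Q := fun d' w' => ¬ R d' w')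
    (fun hP d1 w1 hr hG => ((hR d1 w1 hr).resolve_right hG) _ _ hP) d w
  refine ⟨F.map (algebraMap ℚ ℂ) * H248R5.disc ℂ (r + 4),
    mul_ne_zero (SH.map_ne hF) (H248R5.disc_ne ℂ (r + 4)), fun P hP hs => ?_⟩
  rw [map_mul] at hP
  have hP2 := left_ne_zero_of_mul hP
  have hinj := H248R5.inj_of_disc (right_ne_zero_of_mul hP)
  rw [SH.evP_eval] at hP2
  rw [SH.special_conv] at hs
  have hcur : ∀ {G : MvPolynomial (Fin 3) ℂ} {e : ℕ} {u : Fin (r + 4) → ℕ}, MinusOne P G e u →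
      inter d w e u ≤ -2 → ∃ (G : MvPolynomial (Fin 3) ℂ) (e : ℕ) (u : Fin (r + 4) → ℕ),
        MinusOne P G e u ∧ inter d w e u ≤ -2 ∧ ∀ f ∈ sys P d w, G ^ 2 ∣ f :=
    fun {G e u} h1 h2 => ⟨G, e, u, h1, h2, fun f hf =>
      SH.curve_sq_dvd hinj h1 h2 hf⟩
  rcases hF' ℂ P hP2 hs with h | ⟨d', w', k, C, e, u, N, d1, w1, h1, h2, h3, h4, h5, h6⟩
  · left
    obtain ⟨G, e, u, c1, c2⟩ := SH.mspecial_curve ((SH.mspecial_conv P d w).2 h)
    exact hcur c1 c2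
  · by_cases hN : ∃ a, 2 ≤ N a
    · left
      obtain ⟨a, ha⟩ := hN
      refine hcur (SH.minusOne_iff.2 (h1.exc a)) ?_
      rw [SH.inter_eq, h1.neg a]
      omega
    · right
      push Not at hN
      have hN1 : N = fun _ => 1 := by
        funext a
        have := h1.pos a
        have := hN a
        omega
      subst hN1
      refine ⟨d', w', k, C, e, u, d1, w1, SH.decomp_iff.2 h1, SH.chain_conv h2, h3, ?_,
        (SH.special_conv P d1 w1).2 h4, not_not.1 h6⟩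
      rw [SH.dimL_eq, SH.dimL_eq, h5]

/-- Prime divisors with `h¹ ≠ 0`. -/
theorem prime_rem {n : ℕ} (hn : 4 ≤ n) {R : ℕ → (Fin n → ℕ) → Prop}
    (hR : ∀ (d : ℕ) (w : Fin n → ℕ), Standard d w → GE d w ∨ R d w) {K : Type} [Field K]
    [CharZero K] {P : Fin n → Fin 2 → K}
    (hP : AlgebraicIndependent ℚ (fun ij : Fin n × Fin 2 => P ij.1 ij.2))
    {d : ℕ} {w : Fin n → ℕ} {C : MvPolynomial (Fin 3) K} (hC : Curve P C d w)
    (h : dimL P d w ≠ virtdim d w) :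
    ∃ (d1 : ℕ) (w1 : Fin n → ℕ),
      Relation.ReflTransGen Quadratic (d, w) (d1, w1) ∧ Standard d1 w1 ∧
      Special P d1 w1 ∧ dimL P d1 w1 = dimL P d w ∧ R d1 w1 := by
  classical
  obtain ⟨r, rfl⟩ : ∃ r, n = r + 4 := ⟨n - 4, by omega⟩
  obtain ⟨d1, w1, h1, h2, h3, h4, h5⟩ := Pool.Agent.Y536.SH.prime_full
    (Q := fun d' w' => ¬ R d' w')
    (fun hP d1 w1 hr hG => ((hR d1 w1 hr).resolve_right hG) _ _ hP) hP hC h
  exact ⟨d1, w1, h1, h2, h3, h4, not_not.1 h5⟩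

/-- The standard form of a negative curve which is not a `(-1)`-curve. -/
theorem neg_rem {n : ℕ} (hn : 4 ≤ n) {R : ℕ → (Fin n → ℕ) → Prop}
    (hR : ∀ (d : ℕ) (w : Fin n → ℕ), Standard d w → GE d w ∨ R d w)
    {K : Type} [Field K] [CharZero K] {P : Fin n → Fin 2 → K}
    (hP : AlgebraicIndependent ℚ (fun ij : Fin n × Fin 2 => P ij.1 ij.2))
    {d : ℕ} {w : Fin n → ℕ} {C : MvPolynomial (Fin 3) K}
    (hC : Curve P C d w) (hneg : inter d w d w < 0) (hne : ¬ MinusOne P C d w) :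
    0 < interK d w ∧
    ∃ (P1 : Fin n → Fin 2 → K) (d1 : ℕ) (w1 : Fin n → ℕ) (C1 : MvPolynomial (Fin 3) K),
      AlgebraicIndependent ℚ (fun ij : Fin n × Fin 2 => P1 ij.1 ij.2) ∧
      Curve P1 C1 d1 w1 ∧ Relation.ReflTransGen Quadratic (d, w) (d1, w1) ∧
      Standard d1 w1 ∧ d1 ≤ d ∧ (∀ i, w1 i ≤ w i) ∧
      inter d1 w1 d1 w1 = inter d w d w ∧ interK d1 w1 = interK d w ∧
      virtdim d1 w1 ≤ -1 ∧ R d1 w1 := by
  classical
  obtain ⟨r, rfl⟩ : ∃ r, n = r + 4 := ⟨n - 4, by omega⟩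
  obtain ⟨h1, h2, h3⟩ := SH.curve_iff.1 hC
  have hne' : ¬ (SH.ip d w d w = -1 ∧ SH.kk d w = 1) := fun h0 =>
    hne ⟨hC, by rw [SH.inter_eq, h0.1], by rw [SH.interK_eq, h0.2]⟩
  obtain ⟨M, hM⟩ : ∃ M, ∀ j, w j ≤ M := ⟨∑ j, w j, fun j =>
    Finset.single_le_sum (fun _ _ => Nat.zero_le _) (Finset.mem_univ j)⟩
  have hw : SH.Few M d w := by
    left
    rw [Finset.filter_false_of_mem fun j _ => not_lt.2 (hM j)]
    simp
  obtain ⟨P1, d1, w1, C1, a1, a2, a3, a4, a5, a6, a7, a8⟩ :=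
    Pool.Agent.Y939.NC.std_irr d P hP w hw C h1 h2 h3 hne'
  obtain ⟨c1, c2, c3⟩ := SH.quad_inv a5
  simp only at c1 c2 c3
  rw [SH.inter_eq] at hneg
  have hwd : ∀ j, w1 j ≤ d1 := fun j => SH.van_le a2.ne_zero a3 (a4 j).1
  have hK : SH.kk d1 w1 < 0 := by
    by_contra hcon
    push Not at hcon
    have h4 : 0 ≤ SH.kk d1 w1 := hcon
    rw [SH.kk_cast] at h4
    have h5 := SH.red_ip a6 hwd (by omega)
    omega
  have h7 := SH.two_chi d1 w1
  have hchi : SH.chi d1 w1 ≤ 0 := by omega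
  have hno : ¬ (ExpDim K w1 P1 d1) := by
    intro h6
    rw [TH442.NF.expDim_iff] at h6
    have hmem : C1 ∈ W609.CR.VS (fun j => W609.CR.aff (P1 j)) w1 d1 :=
      (SH.mem_VS _ _ _ _).2 ⟨a3, fun j => (a4 j).1⟩
    have hfin := W609.CR.vs_fin (fun j => W609.CR.aff (P1 j)) w1 d1
    have hpos : 0 < Module.finrank K ↥(W609.CR.VS (fun j => W609.CR.aff (P1 j)) w1 d1) :=
      Module.finrank_pos_iff.2 ⟨⟨C1, hmem⟩, 0, fun h7 => a2.ne_zero (congrArg Subtype.val h7)⟩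
    rw [max_eq_left hchi] at h6
    omega
  refine ⟨?_, P1, d1, w1, C1, a1, SH.curve_iff.2 ⟨a2, a3, a4⟩,
    SH.chain_conv a5, a6, a7, a8, by rw [SH.inter_eq, SH.inter_eq, c3],
    by rw [SH.interK_eq, SH.interK_eq, c2], ?_,
    (hR d1 w1 a6).resolve_left fun h => hno (h K P1 a1)⟩
  · rw [SH.interK_eq, ← c2]
    omega
  · rw [SH.virtdim_eq]
    omega

/-- The reflection of the class `a = (d; w)`, `d H - ∑ w l E l`, in the class
`H - E (i 0) - E (i 1) - E (i 2)`: with `δ = d - w (i 0) - w (i 1) - w (i 2)`, the numbers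
`d`, `w (i 0)`, `w (i 1)`, `w (i 2)` are increased by `δ`. -/
def reflect {n : ℕ} (i : Fin 3 → Fin n) (a : ℤ × (Fin n → ℤ)) : ℤ × (Fin n → ℤ) :=
  (a.1 + (a.1 - a.2 (i 0) - a.2 (i 1) - a.2 (i 2)),
    fun l => a.2 l + if l = i 0 ∨ l = i 1 ∨ l = i 2 then a.1 - a.2 (i 0) - a.2 (i 1) - a.2 (i 2)
      else 0)

/-- Finitely many reflections carry `(d; w)` to `(d'; w')`. -/
def Carries {n : ℕ} (d : ℕ) (w : Fin n → ℕ) (d' : ℕ) (w' : Fin n → ℕ) : Prop :=
  Relation.ReflTransGen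
    (fun a b : ℤ × (Fin n → ℤ) => ∃ i : Fin 3 → Fin n, Function.Injective i ∧ b = reflect i a)
    ((d : ℤ), fun l => (w l : ℤ)) ((d' : ℤ), fun l => (w' l : ℤ))

/-- The Weyl group orbits of standard classes of expected dimension. -/
theorem GE.orbit {n : ℕ} (hn : 4 ≤ n) {d : ℕ} {w : Fin n → ℕ} {d' : ℕ} {w' : Fin n → ℕ}
    (hc : Carries d w d' w') (hs : Standard d' w') (h : GE d' w') : GE d w :=
  fun K _ _ P hP => TH442.NF.up_enef hP hc (TH442.NF.enef_of_std hn P hs) (h K P hP)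

/-- `h⁰ (D)` for the class `D = d H - ∑ w i E i`. -/
noncomputable def hZero {n : ℕ} (P : Fin n → Fin 2 → ℂ) (d : ℕ) (w : Fin n → ℕ) : ℤ :=
  (Module.finrank ℂ ↥(sys P d w) : ℤ)

/-- The Euler characteristic. -/
def chi {n : ℕ} (d : ℕ) (w : Fin n → ℕ) : ℤ :=
  ((d + 2).choose 2 : ℤ) - ∑ i, ((w i + 1).choose 2 : ℤ)

theorem GE.hZero {n d : ℕ} {w : Fin n → ℕ} (h : GE d w) :
    ∃ F : MvPolynomial (Fin n × Fin 2) ℂ, F ≠ 0 ∧ ∀ P : Fin n → Fin 2 → ℂ,
      eval (fun ij : Fin n × Fin 2 => P ij.1 ij.2) F ≠ 0 → hZero P d w = max 0 (chi d w) := by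
  obtain ⟨F, hF, hF'⟩ := h.general
  refine ⟨F, hF, fun P hP => ?_⟩
  have h1 := hF' P hP
  unfold dimL virtdim at h1
  unfold FP.hZero chi
  omega

/-- The statement with `h⁰` and the Euler characteristic. -/
theorem shgh_rem {n : ℕ} (hn : 4 ≤ n) {R : ℕ → (Fin n → ℕ) → Prop}
    (hR : ∀ (d : ℕ) (w : Fin n → ℕ), Standard d w → GE d w ∨ R d w) (d : ℕ) (w : Fin n → ℕ) :
    ∃ F : MvPolynomial (Fin n × Fin 2) ℂ, F ≠ 0 ∧
      ∀ P : Fin n → Fin 2 → ℂ, eval (fun ij : Fin n × Fin 2 => P ij.1 ij.2) F ≠ 0 →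
        hZero P d w = max 0 (chi d w) ∨
        (∃ (G : MvPolynomial (Fin 3) ℂ) (e : ℕ) (u : Fin n → ℕ), MinusOne P G e u ∧
          inter d w e u ≤ -2) ∨
        ∃ (d'' : ℕ) (w'' : Fin n → ℕ) (k : ℕ) (G : Fin k → MvPolynomial (Fin 3) ℂ)
          (e : Fin k → ℕ) (u : Fin k → Fin n → ℕ) (d' : ℕ) (w' : Fin n → ℕ),
          Decomp P d w d'' w'' G e u (fun _ => 1) ∧
          Relation.ReflTransGen Quadratic (d'', w'') (d', w') ∧ Standard d' w' ∧
          hZero P d' w' = hZero P d w ∧ hZero P d' w' ≠ max 0 (chi d' w') ∧ R d' w' := by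
  have hsp : ∀ (P : Fin n → Fin 2 → ℂ) (d : ℕ) (w : Fin n → ℕ),
      Special P d w ↔ hZero P d w ≠ max 0 (chi d w) := by
    intro P d w
    unfold Special dimL virtdim hZero chi
    constructor
    · intro h1 h2
      apply h1
      omega
    · intro h1 h2
      apply h1
      omega
  obtain ⟨F, hF, hF'⟩ := segre_rem hn hR d w
  refine ⟨F, hF, fun P hP => ?_⟩
  by_cases hs : hZero P d w = max 0 (chi d w)
  · exact Or.inl hs
  right
  rcases hF' P hP ((hsp P d w).2 hs) with ⟨G, e, u, h1, h2, -⟩ |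
    ⟨d'', w'', k, G, e, u, d', w', h1, h2, h3, h4, h5, h6⟩
  · exact Or.inl ⟨G, e, u, h1, h2⟩
  · refine Or.inr ⟨d'', w'', k, G, e, u, d', w', h1, h2, h3, ?_, (hsp P d' w').1 h5, h6⟩
    unfold hZero
    unfold dimL at h4
    omega

end Pool.Agent.Q310.FP
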